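import Mathlib
import Pool.Agent.H509R3.TraceObs
import Pool.Agent.H509R3.TraceAdm

set_option autoImplicit false
open NumberTheorySymbols

namespace Pool.Agent.HP42.TR

open Pool.Agent.H509R3

/-- all prime factors are congruent to one modulo four -/
def OneModFour (m : ℕ) : Prop := ∀ p : ℕ, p.Prime → p ∣ m → p % 4 = 1

lemma odd_of {m : ℕ} (hm : OneModFour m) : m % 2 = 1 := by
  by_contra h
  have h2 : 2 ∣ m := by omega
  have := hm 2 Nat.prime_two h2
  omega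

lemma sq_mod_eight {m : ℕ} (hm : m % 2 = 1) : m ^ 2 % 8 = 1 := by
  have h : m % 8 = 1 ∨ m % 8 = 3 ∨ m % 8 = 5 ∨ m % 8 = 7 := by omega
  rcases h with h | h | h | h <;> simp [Nat.pow_mod, h]

lemma oneModFour_sq_add (j : ℕ) : OneModFour (4 * j ^ 2 + 1) := by
  intro p hp hdvd
  have : Fact p.Prime := ⟨hp⟩
  have h1 : ((4 * j ^ 2 + 1 : ℕ) : ZMod p) = 0 := (ZMod.natCast_eq_zero_iff _ _).2 hdvd
  have h2 : IsSquare (-1 : ZMod p) := by
    refine ⟨2 * (j : ZMod p), ?_⟩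
    push_cast at h1
    linear_combination (-1 : ZMod p) * h1
  have h3 := (ZMod.exists_sq_eq_neg_one_iff (p := p)).1 h2
  have h4 : p ≠ 2 := by
    rintro rfl
    omega
  have h5 := hp.eq_two_or_odd
  omega

/-- if `t + 2 = m ^ 2`, all prime factors of `m` are `1` modulo `4`, `p s - q r = 1`, `p + s = t`
and `r` is odd then `J(p | r) = 1` -/
lemma jac_gen (p q r s m : ℕ) (hm : OneModFour m) (hr : r % 2 = 1) (hdet : (p : ℤ) * s - q * r = 1)
    (ht : (p : ℤ) + s = (m : ℤ) ^ 2 - 2) : J((p : ℤ) | r) = 1 := by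
  rw [jacobiSym]
  apply List.prod_eq_one
  intro x hx
  rw [List.mem_pmap] at hx
  obtain ⟨ℓ, hℓ, rfl⟩ := hx
  have hprime : ℓ.Prime := Nat.prime_of_mem_primeFactorsList hℓ
  have hdvd : ℓ ∣ r := Nat.dvd_of_mem_primeFactorsList hℓ
  have : Fact ℓ.Prime := ⟨hprime⟩
  have hr0 : ((r : ℕ) : ZMod ℓ) = 0 := (ZMod.natCast_eq_zero_iff _ _).mpr hdvd
  have hdet' : (p : ZMod ℓ) * s = 1 := by
    have := congrArg (Int.cast : ℤ → ZMod ℓ) hdet
    push_cast at this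
    rw [hr0] at this
    simpa using this
  have ht' : (p : ZMod ℓ) + s = (m : ZMod ℓ) ^ 2 - 2 := by
    have := congrArg (Int.cast : ℤ → ZMod ℓ) ht
    push_cast at this
    exact this
  have hp0 : (p : ZMod ℓ) ≠ 0 := by
    intro h
    rw [h, zero_mul] at hdet'
    exact zero_ne_one hdet'
  have hkey : (p : ZMod ℓ) * (m : ZMod ℓ) ^ 2 = (p + 1) ^ 2 := by
    have : (p : ZMod ℓ) * (p + s) = p * ((m : ZMod ℓ) ^ 2 - 2) := by rw [ht']
    linear_combination -this + hdet'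
  have hp0' : ((p : ℤ) : ZMod ℓ) ≠ 0 := by simpa using hp0
  rw [legendreSym.eq_one_iff ℓ hp0']
  by_cases h5 : (m : ZMod ℓ) = 0
  · have h5' : ℓ ∣ m := (ZMod.natCast_eq_zero_iff _ _).mp h5
    have hl4 : ℓ % 4 = 1 := hm ℓ hprime h5'
    have h1 : (p : ZMod ℓ) + 1 = 0 := by
      rw [h5] at hkey
      have h6 : ((p : ZMod ℓ) + 1) ^ 2 = 0 := by rw [← hkey]; ring
      exact pow_eq_zero_iff (two_ne_zero) |>.mp h6
    have h2 : ((p : ℤ) : ZMod ℓ) = -1 := by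
      push_cast
      linear_combination h1
    rw [h2]
    exact (ZMod.exists_sq_eq_neg_one_iff (p := ℓ)).2 (by omega)
  · push_cast
    refine ⟨((p : ZMod ℓ) + 1) / m, ?_⟩
    field_simp
    rw [hkey]

/-- Main obstruction. -/
theorem no_trace_gen (l : List ℕ) (hl : ∀ b ∈ l, b % 8 = 1) (hev : Even l.length) (m : ℕ)
    (hm : OneModFour m) :
    Matrix.trace ((List.map (fun b : ℕ => (!![(b : ℤ), 1; 1, 0] : Matrix (Fin 2) (Fin 2) ℤ)) l).prod)
      ≠ (m : ℤ) ^ 2 - 2 := by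
  intro htr
  rw [prod_eq, Matrix.trace_fin_two_of] at htr
  have hI := Inv_list l hl
  have hd := det_list l
  rw [hev.neg_one_pow] at hd
  have hlen : l.length % 12 % 2 = 0 := by
    have := Nat.even_iff.mp hev
    omega
  have h25 : (m : ℤ) ^ 2 % 8 = 1 := by
    have := sq_mod_eight (odd_of hm)
    exact_mod_cast this
  have hmm : ((colA l).1 + (colB l).2) % 8 = 7 := by
    have : (((colA l).1 : ℤ) + (colB l).2) % 8 = 7 := by
      rw [htr]; omega
    omega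
  have hfin : (colA l).2 % 2 = 1 ∧ sy (colA l).1 (colA l).2 = -1 := by
    rcases hI with h | h | h | h | h | h | h | h | h | h | h | h <;>
      obtain ⟨h1, h2, h3, h4, h5, h6⟩ := h <;> first
        | (exfalso; omega)
        | exact ⟨by omega, h6⟩
  obtain ⟨ho, hsy⟩ := hfin
  have hj := jac_gen (colA l).1 (colB l).1 (colA l).2 (colB l).2 m hm ho hd htr
  rw [sy, if_pos ho, hj] at hsy
  norm_num at hsy

lemma exists_uv_gen (n m : ℕ) (hn : 1 ≤ n) (hm : m % 2 = 1) : ∃ i j : ℕ,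
    (((9 + 8 * i : ℕ) : ZMod n) + 2) * (((9 + 8 * j : ℕ) : ZMod n) + 2) = (m : ZMod n) ^ 2 := by
  have h3 : IsUnit ((3 : ℕ) : ZMod 8) := by
    rw [ZMod.isUnit_iff_coprime]; decide
  obtain ⟨u, hu, hup, hu8⟩ := Nat.forall_exists_prime_gt_and_eq_mod h3 (8 * n + 11)
  have hu8' : u % 8 = 3 := by
    have := (ZMod.natCast_eq_natCast_iff' u 3 8).mp (by exact_mod_cast hu8)
    simpa using this
  have hcop : Nat.Coprime u (8 * n) := by
    rw [hup.coprime_iff_not_dvd]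
    intro h
    have := Nat.le_of_dvd (by omega) h
    omega
  have : NeZero (8 * n) := ⟨by omega⟩
  set w : ZMod (8 * n) := (u : ZMod (8 * n))⁻¹ * (m : ZMod (8 * n)) ^ 2 with hw
  have huw : (u : ZMod (8 * n)) * w = (m : ZMod (8 * n)) ^ 2 := by
    rw [hw, ← mul_assoc, ZMod.coe_mul_inv_eq_one u hcop, one_mul]
  set v : ℕ := w.val + 8 * n * 11 with hv
  have hvw : (v : ZMod (8 * n)) = w := by
    rw [hv, Nat.cast_add, ZMod.natCast_zmod_val, Nat.cast_mul, ZMod.natCast_self, zero_mul, add_zero]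
  have huv : ((u * v : ℕ) : ZMod (8 * n)) = ((m ^ 2 : ℕ) : ZMod (8 * n)) := by
    push_cast
    rw [hvw]
    exact huw
  have huv' : u * v ≡ m ^ 2 [MOD (8 * n)] := (ZMod.natCast_eq_natCast_iff _ _ _).mp huv
  have h8 : u * v ≡ m ^ 2 [MOD 8] := huv'.of_mul_right n
  have hn' : u * v ≡ m ^ 2 [MOD n] := huv'.of_mul_left 8
  have h25 : m ^ 2 % 8 = 1 := sq_mod_eight hm
  have hv8 : v % 8 = 3 := by
    have h1 : (u * v) % 8 = 1 := by rw [← h25]; exact h8
    rw [Nat.mul_mod, hu8'] at h1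
    have h2 : v % 8 < 8 := Nat.mod_lt _ (by norm_num)
    interval_cases h : v % 8 <;> simp_all
  refine ⟨(u - 11) / 8, (v - 11) / 8, ?_⟩
  have e1 : 9 + 8 * ((u - 11) / 8) + 2 = u := by omega
  have e2 : 9 + 8 * ((v - 11) / 8) + 2 = v := by omega
  have e3 : ((9 + 8 * ((u - 11) / 8) : ℕ) : ZMod n) + 2 = (u : ZMod n) := by
    conv_rhs => rw [← e1]
    push_cast; ring
  have e4 : ((9 + 8 * ((v - 11) / 8) : ℕ) : ZMod n) + 2 = (v : ZMod n) := by
    conv_rhs => rw [← e2]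
    push_cast; ring
  rw [e3, e4]
  have := (ZMod.natCast_eq_natCast_iff _ _ _).mpr hn'
  push_cast at this
  exact this

/-- admissibility of `m ^ 2 - 2`, `m` odd -/
theorem admissible_gen (m : ℕ) (hm : m % 2 = 1) (q : ℤ) (hq : 1 ≤ q) :
    ∃ l : List ℕ, l ≠ [] ∧ Even l.length ∧ (∀ b ∈ l, b = 9 ∨ b = 17) ∧
    Matrix.trace ((List.map (fun b : ℕ => (!![(b : ℤ), 1; 1, 0] : Matrix (Fin 2) (Fin 2) ℤ)) l).prod)
      ≡ (m : ℤ) ^ 2 - 2 [ZMOD q] := by
  obtain ⟨n, rfl⟩ : ∃ n : ℕ, q = n := ⟨q.toNat, by omega⟩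
  have hn : 1 ≤ n := by exact_mod_cast hq
  obtain ⟨i, j, hij⟩ := exists_uv_gen n m hn hm
  obtain ⟨L1, o1, m1, p1⟩ := virt n hn i
  obtain ⟨L2, o2, m2, p2⟩ := virt n hn j
  obtain ⟨L0, o0, m0, p0⟩ := virt n hn (n - 1)
  refine ⟨L1 ++ (L0 ++ (L2 ++ L0)), ?_, ?_, ?_, ?_⟩
  · intro h
    rw [List.append_eq_nil_iff] at h
    rw [h.1] at o1
    simp at o1
  · simp only [List.length_append]
    rw [Nat.odd_iff] at o0 o1 o2
    rw [Nat.even_iff]
    omega
  · intro b hb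
    simp only [List.mem_append] at hb
    rcases hb with h | h | h | h
    · exact m1 b h
    · exact m0 b h
    · exact m2 b h
    · exact m0 b h
  · rw [← ZMod.intCast_eq_intCast_iff]
    set l := L1 ++ (L0 ++ (L2 ++ L0)) with hl
    have hmap : ((Matrix.trace ((List.map (fun b : ℕ => (!![(b : ℤ), 1; 1, 0] : Matrix (Fin 2) (Fin 2) ℤ)) l).prod) : ℤ) : ZMod n)
        = Matrix.trace ((List.map (fm n) l).prod) := by
      have h1 : (Int.castRingHom (ZMod n)).mapMatrix ((List.map (fun b : ℕ => (!![(b : ℤ), 1; 1, 0] : Matrix (Fin 2) (Fin 2) ℤ)) l).prod)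
          = (List.map (fm n) l).prod := by
        rw [map_list_prod, List.map_map]
        congr 1
        apply List.map_congr_left
        intro b _
        ext i j
        fin_cases i <;> fin_cases j <;> simp [fm]
      rw [← h1]
      simp [Matrix.trace_fin_two]
    rw [hmap, hl, List.map_append, List.map_append, List.map_append, List.prod_append, List.prod_append,
      List.prod_append, p1, p0, p2, trace_four n hn, hij]
    push_cast
    ring

/-- every long interval `[N, 2 N)` contains a number `(4 j ^ 2 + 1) ^ 2 - 2` -/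
lemma exists_in_interval (N : ℝ) (hN : 100000 ≤ N) : ∃ j : ℕ,
    N ≤ (((4 * j ^ 2 + 1 : ℕ) : ℝ)) ^ 2 - 2 ∧ (((4 * j ^ 2 + 1 : ℕ) : ℝ)) ^ 2 - 2 < 2 * N := by
  classical
  have hex : ∃ j : ℕ, N + 2 ≤ (((4 * j ^ 2 + 1 : ℕ) : ℝ)) ^ 2 := by
    obtain ⟨j, hj⟩ := exists_nat_ge (N + 2)
    refine ⟨j, ?_⟩
    push_cast
    have hj1 : (1 : ℝ) ≤ j := by linarith
    nlinarith [sq_nonneg ((j : ℝ)), mul_self_nonneg ((j : ℝ) ^ 2)]
  have h1 := Nat.find_spec hex
  set j := Nat.find hex with hj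
  have hj8 : 8 ≤ j := by
    by_contra hlt
    push Not at hlt
    have h2 : (4 * j ^ 2 + 1) ≤ 197 := by
      have h9 : j ≤ 7 := by omega
      have h10 : j ^ 2 ≤ 7 ^ 2 := Nat.pow_le_pow_left h9 2
      omega
    have h3 : (((4 * j ^ 2 + 1 : ℕ) : ℝ)) ≤ 197 := by exact_mod_cast h2
    have h4 : (0 : ℝ) ≤ ((4 * j ^ 2 + 1 : ℕ) : ℝ) := Nat.cast_nonneg _
    nlinarith
  obtain ⟨i, hi⟩ : ∃ i, j = i + 1 := ⟨j - 1, by omega⟩
  have h5 := Nat.find_min hex (m := i) (by omega)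
  push Not at h5
  refine ⟨j, by linarith, ?_⟩
  have hi7 : (7 : ℝ) ≤ i := by
    have : 7 ≤ i := by omega
    exact_mod_cast this
  rw [hi]
  push_cast at h5 ⊢
  have h6 : (4 * ((i : ℝ) + 1) ^ 2 + 1) ≤ 1.4 * (4 * (i : ℝ) ^ 2 + 1) := by nlinarith
  have h7 : (4 * ((i : ℝ) + 1) ^ 2 + 1) ^ 2 ≤ 1.96 * (4 * (i : ℝ) ^ 2 + 1) ^ 2 := by
    have h8 : 0 ≤ 4 * ((i : ℝ) + 1) ^ 2 + 1 := by positivity
    nlinarith
  nlinarith

end Pool.Agent.HP42.TR
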